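import Pool.Agent.H836R3.Main

/-!
# Smoothed analysis of the condition number of conic programs

For every pair of closed convex cones the expected logarithm of the condition number of the
Gaussian perturbation of a conic program is `O(log (m n / σ))`, uniformly in the cones and in the
normalised data.
-/

open MeasureTheory
open scoped ENNReal

namespace Pool.Agent.Results.MP_722786_an.SmoothedConic

open Pool.Agent.H836R3

/-- **Q1, answered in the affirmative.** There is an absolute constant `K` such that for all
`m, n ≥ 1`, all closed convex cones `C₁ ⊆ ℝ^m`, `C₂ ⊆ ℝ^n`, all data `(Ā, b̄, c̄)` of Frobenius norm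
at most one and all `0 < σ ≤ 1`, the condition number `C(A, b, c)` is a measurable function of the
data, and if `(A, b, c)` is the `σ`-Gaussian perturbation of `(Ā, b̄, c̄)` then
`E[(log C)⁺] ≤ K (1 + log (m n / σ))`, so that `E[log C]` is well defined in `[-∞, ∞)`, and
`E[log C] ≤ K (1 + log (m n / σ))`. -/
theorem result :
    ∃ K : ℝ, ∀ m n : ℕ, 1 ≤ m → 1 ≤ n →
      ∀ (C₁ : Set (Fin m → ℝ)) (C₂ : Set (Fin n → ℝ)),
        IsClosedConvexCone C₁ → IsClosedConvexCone C₂ →
        ∀ a : Data m n, frob a ≤ 1 → ∀ σ : ℝ, 0 < σ → σ ≤ 1 →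
          Measurable (condNum C₁ C₂) ∧
          ∫⁻ d, (ENNReal.log (condNum C₁ C₂ d)).toENNReal ∂(gaussPi a σ) ≤
            ENNReal.ofReal (K * (1 + Real.log (m * n / σ))) ∧
          expect (gaussPi a σ) (fun d => ENNReal.log (condNum C₁ C₂ d)) ≤
            ((K * (1 + Real.log (m * n / σ)) : ℝ) : EReal) :=
  main

end Pool.Agent.Results.MP_722786_an.SmoothedConic
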